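import Mathlib
import Pool.Agent.KS6_27.Pairs2
import Pool.Graph.R_seed8.H715R2.Littlewood

/-! # MP_0ea415_nt: Littlewood's conjecture for pairs of algebraic numbers and the complexity of
the cone orbit

For real `α, β` let `L` be the matrix with rows `(1, 0, 0)`, `(α, -1, 0)`, `(β, 0, -1)`; the product
of the linear forms given by its rows is `q (q α - p) (q β - r)`. The part of depth `N` of the cone
orbit of `(α, β)` consists of the matrices `diag(a) L` with `a` positive of product one and with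
`a 1, a 2 ≥ N`.

Two matrices `x` and `y` are `ε`-close if `x = diag(b) (1 + E) y γ` with `1 / K ≤ b i ≤ K`, with
`|E i j| ≤ ε` and with `γ` integral of determinant `±1`: up to the size `ε` they are the same, up to
a bounded diagonal matrix and an integral change of variables.

The theorem: let `α` and `β` be real algebraic numbers. If for some `K` and some `A` there are
arbitrarily small scales `ε` and depths `N ≤ (1 / ε) ^ A` such that the part of depth `N` of the
cone orbit can be divided into at most `A (log (1 / ε)) ^ 2` classes such that any two elements of a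
class are `ε`-close, then `liminf q ⟨qα⟩ ⟨qβ⟩ = 0`.

So if Littlewood's conjecture fails for a pair of algebraic numbers, the complexity of its cone
orbit grows faster than every multiple of `(log (1 / ε)) ^ 2`. -/

set_option autoImplicit false

open Filter Topology

namespace Pool.Agent.Results.MP_0ea415_nt.AlgebraicPairs

/-- `q ⟨qα⟩ ⟨qβ⟩`, where `⟨x⟩` is the distance from `x` to the nearest integer -/
noncomputable def f (α β : ℝ) (q : ℕ) : ℝ :=
  (q : ℝ) * |(q : ℝ) * α - (round ((q : ℝ) * α) : ℝ)| * |(q : ℝ) * β - (round ((q : ℝ) * β) : ℝ)|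

/-- The matrix of the linear forms `q`, `q α - p`, `q β - r`. -/
def L (α β : ℝ) : Matrix (Fin 3) (Fin 3) ℝ := !![1, 0, 0; α, -1, 0; β, 0, -1]

/-- `x = diag(b) (1 + E) y γ` with `b` between `1 / K` and `K`, with the entries of `E` at most `ε`
and with `γ` integral of determinant `±1` -/
def Close (K ε : ℝ) (x y : Matrix (Fin 3) (Fin 3) ℝ) : Prop :=
  ∃ (b : Fin 3 → ℝ) (E : Matrix (Fin 3) (Fin 3) ℝ) (γ : Matrix (Fin 3) (Fin 3) ℤ),
    (∀ i, 1 / K ≤ b i ∧ b i ≤ K) ∧ (∀ i j, |E i j| ≤ ε) ∧ |γ.det| = 1 ∧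
    x = Matrix.diagonal b * (1 + E) * y * γ.map (Int.cast : ℤ → ℝ)

/-- `a` is a place in the part of the cone of depth `N` -/
def Deep (N : ℝ) (a : Fin 3 → ℝ) : Prop :=
  (∀ i, 0 < a i) ∧ ∏ i, a i = 1 ∧ N ≤ a 1 ∧ N ≤ a 2

/-- The part of depth `N` of the cone orbit of `(α, β)` can be divided into `k` classes such that
any two elements of a class are close. -/
def Pieces (K ε N α β : ℝ) (k : ℕ) : Prop :=
  ∃ col : (Fin 3 → ℝ) → Fin k, ∀ a a' : Fin 3 → ℝ, Deep N a → Deep N a' → col a = col a' →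
    Close K ε (Matrix.diagonal a * L α β) (Matrix.diagonal a' * L α β)

theorem result (α β : ℝ) (hα : IsAlgebraic ℚ α) (hβ : IsAlgebraic ℚ β) (K : ℝ) (hK : 1 ≤ K)
    (A : ℕ)
    (h : ∀ ε₀ : ℝ, 0 < ε₀ → ∃ (ε N : ℝ) (k : ℕ), 0 < ε ∧ ε < ε₀ ∧ N ≤ (1 / ε) ^ A ∧
      Pieces K ε N α β k ∧ (k : ℝ) ≤ A * Real.log (1 / ε) ^ 2) :
    ∀ ν : ℝ, 0 < ν → ∀ M : ℕ, ∃ q : ℕ, M ≤ q ∧ 0 < q ∧ f α β q < ν := by
  classical
  intro ν hν
  by_contra hcon
  push Not at hcon
  obtain ⟨M, hM⟩ := hcon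
  obtain ⟨ν', hν'0, hν'⟩ := H715R2.exists_nu hν hM
  obtain ⟨ε₀, hε₀, hmain⟩ := KS6_27.complexity3 hα hβ hν'0 hν' hK (A + 1)
  obtain ⟨ε, N, k, hε0, hε, hN, ⟨col, hcol⟩, hk⟩ := h (min ε₀ (1 / 2)) (by positivity)
  have hε1 : ε < 1 / 2 := hε.trans_le (min_le_right _ _)
  have hε2 : 1 ≤ 1 / ε := by
    rw [le_div_iff₀ hε0]
    linarith
  have h1 := hmain ε hε0 (hε.trans_le (min_le_left _ _)) N
    (hN.trans (pow_le_pow_right₀ hε2 (Nat.le_succ A))) k col
    (fun a a' ha0 ha1 h1 h2 ha0' ha1' h1' h2' heq => by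
      obtain ⟨b, E, γ, hb, hE, hγ, h⟩ := hcol a a' ⟨ha0, ha1, h1, h2⟩ ⟨ha0', ha1', h1', h2'⟩ heq
      exact ⟨b, E, γ, hb, hE, Int.isUnit_iff_abs_eq.2 hγ, h⟩)
  have h2 : 0 < Real.log (1 / ε) := by
    refine Real.log_pos ?_
    rw [lt_div_iff₀ hε0]
    linarith
  have h3 : (0 : ℝ) < Real.log (1 / ε) ^ 2 := by positivity
  push_cast at h1
  linarith

end Pool.Agent.Results.MP_0ea415_nt.AlgebraicPairs
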