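import Mathlib
import Pool.Agent.KS6_31.DB.Local

set_option autoImplicit false

/-! # MP_0ea415_nt: badly approximable fibres contain many points without shallow approximations

For badly approximable `α`, `β` write `f(q) = q ‖qα‖ ‖qβ‖` and call `min (q ‖qα‖, q ‖qβ‖)` the depth of
`q`: in the language of the diagonal group it is the distance to the walls of the cone, Littlewood's
conjecture asks for `q` with small `f(q)`, and these `q` must have a large depth. How large?

**Theorem.** Let `A` be a countable set of badly approximable numbers and `δ > 0`. In every nonempty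
open set the numbers `β` with
`f(q) ≥ c / (log (2 + depth of q)) ^ (1 + δ)` for all `q ≥ 1` and all `α ∈ A` (`c = c(α, β) > 0`)
have Hausdorff dimension one. So `f(q) < ε` forces both `q ‖qα‖` and `q ‖qβ‖` to be at least
`exp ((c / ε) ^ (1 / (1 + δ))) - 2`.

Badziahin and Velani have, for one `α`, `f(q) ≥ c / (log q · log log q)` on a set of dimension one; there
the bound depends on the size of `q`, and nothing is excluded near the walls.

Proof: the denominators `q` are sorted by their shape `(log₂ q, log₂ (q ‖qα‖))`. Integer points
`(q, p, r)` of one shape near a surviving dyadic interval are counted by three cases (points in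
general position, on a plane, on a line; `Pool/Agent/KS6_31/DB/Lattice.lean`, `Count.lean`), with an
ancestor level depending on the distance of the shape to the walls; the surviving intervals are
counted as in Rosenfeld's method (`Tree.lean`, `Avoid.lean`).
-/

open Set

namespace Pool.Agent.Results.MP_0ea415_nt.DepthBound

/-- `‖x‖`, the distance to the nearest integer -/
noncomputable def dist1 (x : ℝ) : ℝ := |x - round x|

/-- `q ‖qα‖ ‖qβ‖ (log (2 + min (q ‖qα‖, q ‖qβ‖))) ^ (1 + δ)` is at least a positive constant for all
`q ≥ 1`. -/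
def DepthLB (δ α β : ℝ) : Prop := ∃ c : ℝ, 0 < c ∧ ∀ q : ℕ, 1 ≤ q →
  c ≤ q * dist1 (q * α) * dist1 (q * β) *
    (Real.log (2 + min (q * dist1 (q * α)) (q * dist1 (q * β)))) ^ (1 + δ)

/-- **Main result.** -/
theorem result (A : Set ℝ) (hA : A.Countable)
    (hbad : ∀ α ∈ A, ∃ c : ℝ, 0 < c ∧ ∀ q : ℕ, 1 ≤ q → c ≤ q * dist1 (q * α))
    (δ : ℝ) (hδ : 0 < δ) (U : Set ℝ) (hU : IsOpen U) (hne : U.Nonempty) :
    dimH ({β : ℝ | ∀ α ∈ A, DepthLB δ α β} ∩ U) = 1 :=
  Pool.Agent.KS6_31.DB.main_local A hA hbad δ hδ U hU hne

end Pool.Agent.Results.MP_0ea415_nt.DepthBound
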