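import Pool.Agent.KS6_2.WCase
import Pool.Agent.KS6_2.Conv

/-! # MP_0ea415_nt: Gallagher's theorem on the fibres over badly approximable numbers, for measures
with Fourier decay and moving targets

Let `α` be badly approximable and `z_q` any sequence of real numbers. Let `μ` be a probability
measure on the line with decaying Fourier coefficients `μ^(m)` (at integers `m` only).

* Polynomial decay, `|μ^(m)| ≤ C |m| ^ (-τ)` with any `τ > 0` (for instance Kaufman's measures on the
  numbers with bounded partial quotients): for `μ`-almost all `β` the inequality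
  `‖qα‖ ‖qβ - z_q‖ < ψ(q)` has infinitely many solutions if `ψ` is monotone and
  `∑ ψ(q) log q = ∞`; so `liminf q (log q) ^ 2 ‖qα‖ ‖qβ - z_q‖ = 0`, the rate of Gallagher's theorem.
* If `τ > 1/2` and `∑ ψ(q) log q < ∞` there are only finitely many solutions, for `μ`-almost all
  `β`. (For smaller `τ` there are measures living on very well approximable numbers.)
* Slower decay, `|μ^(m)| ≤ C (log m) ^ (-2-ε) exp (-ε w (log m))`: infinitely many solutions if
  `∑ ψ(q) w(log q) = ∞`. Here `w(t) = t` is polynomial decay, `w(t) = t ^ θ` is intermediate, and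
  `w(t) = log t` (decay `(log m) ^ (-A)`, `A > 2`) gives the rate `log q log log q`.

Proof of the divergence part: among the `q` of the scale `X = R ^ k` with
`‖qα‖ ≤ 4 ^ I / X` we take those for which `(q, p)`, `p` the integer next to `qα`, is a primitive
vector. For them the sum of `1 / ‖qα‖` has the expected order `X I` (adapted bases of `ℤ ^ 2`). Tent
functions of `qβ - z_q` have non-negative Fourier coefficients; the frequencies `n q - n' q'` in the
correlation of two of them are nonzero (primitivity) and then large (`α` is badly approximable). So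
the number of solutions has a variance not much larger than its mean value.
-/

open Real MeasureTheory Filter

namespace Pool.Agent.Results.MP_0ea415_nt.FourierDecay

/-- distance to the nearest integer -/
noncomputable def dist (x : ℝ) : ℝ := |x - round x|

/-- the Fourier coefficient of `μ` at the integer `m` -/
noncomputable def fc (μ : Measure ℝ) (m : ℕ) : ℂ :=
  ∫ x : ℝ, Complex.exp (2 * π * Complex.I * (m : ℂ) * x) ∂μ

lemma dist_eq : dist = Pool.Agent.KS6_2.nint := rfl

lemma rate_not_summable {ε : ℝ} (hε : 0 < ε) :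
    ¬ Summable (fun q : ℕ => ε / (((q : ℝ) + 2) * Real.log ((q : ℝ) + 2) ^ 2) * Real.log q) := by
  intro hs
  have hlog : ∀ q : ℕ, 0 < Real.log ((q : ℝ) + 2) := fun q =>
    Real.log_pos (by have : (0 : ℝ) ≤ q := by positivity
                     linarith)
  have hanti : Antitone (fun q : ℕ => ε / (((q : ℝ) + 2) * Real.log ((q : ℝ) + 2) ^ 2)) := by
    intro i j hij
    have h1 : (i : ℝ) ≤ j := by exact_mod_cast hij
    have h2 := hlog i
    have h3 : Real.log ((i : ℝ) + 2) ≤ Real.log ((j : ℝ) + 2) :=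
      Real.log_le_log (by positivity) (by linarith)
    simp only
    gcongr
  have h := Pool.Agent.KS6_2.summable_cond hanti (fun q => by have := hlog q; positivity) hs
  have hl2 : 0 < Real.log 2 := Real.log_pos (by norm_num)
  have hl1 : Real.log 2 ≤ 1 := by have := Real.log_two_lt_d9; linarith
  have h2 : Summable (fun k : ℕ => ε / 3 * (1 / (((k + 2 : ℕ) : ℝ)))) := by
    refine Summable.of_nonneg_of_le (fun k => by positivity) (fun k => ?_) h
    have hk : (0 : ℝ) ≤ k := by positivity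
    have e1 : Real.log (((2 ^ k : ℕ) : ℝ) + 2) ≤ (k : ℝ) + 2 := by
      calc Real.log (((2 ^ k : ℕ) : ℝ) + 2) ≤ Real.log ((2 : ℝ) ^ (k + 2)) := by
            apply Real.log_le_log (by positivity)
            push_cast
            have : (1 : ℝ) ≤ 2 ^ k := one_le_pow₀ (by norm_num)
            rw [pow_add]; linarith
        _ = (k + 2) * Real.log 2 := by rw [Real.log_pow]; push_cast; ring
        _ ≤ (k + 2) * 1 := by gcongr
        _ = _ := mul_one _
    have e0 := hlog (2 ^ k)
    have e2 : (2 : ℝ) ^ k + 2 ≤ 3 * 2 ^ k := by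
      have : (1 : ℝ) ≤ 2 ^ k := one_le_pow₀ (by norm_num)
      linarith
    calc ε / 3 * (1 / (((k + 2 : ℕ) : ℝ))) = ε / ((3 * 2 ^ k) * ((k : ℝ) + 2) ^ 2) * 2 ^ k * ((k : ℝ) + 2) := by
          push_cast; field_simp
      _ ≤ ε / ((((2 ^ k : ℕ) : ℝ) + 2) * Real.log (((2 ^ k : ℕ) : ℝ) + 2) ^ 2) * 2 ^ k * ((k : ℝ) + 2) := by
          gcongr
          push_cast; exact e2
  have h3 : Summable (fun k : ℕ => 1 / (((k + 2 : ℕ) : ℝ))) := by
    have := h2.mul_left (3 / ε)
    refine this.congr fun k => ?_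
    field_simp
  exact Real.not_summable_one_div_natCast ((summable_nat_add_iff 2).mp h3)

/-- **Gallagher's theorem on the fibres over badly approximable numbers for measures with Fourier
decay, with moving targets.** -/
theorem result (α : ℝ) (hα : ∃ c : ℝ, 0 < c ∧ ∀ q : ℕ, 1 ≤ q → c ≤ q * dist (q * α))
    (z : ℕ → ℝ) (μ : Measure ℝ) [IsProbabilityMeasure μ] (C : ℝ) :
    -- (1) divergence part, general decay
    (∀ (ε K : ℝ) (w : ℝ → ℝ), 0 < ε → (∀ s t, 1 ≤ s → s ≤ t → w s ≤ w t) →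
      (∀ t, 1 ≤ t → 0 ≤ w t ∧ w t ≤ t) → (∀ t, 1 ≤ t → w (2 * t) ≤ K * (w t + 1)) →
      (∀ m : ℕ, 3 ≤ m → ‖fc μ m‖ ≤
        C * (Real.log m) ^ (-(2 + ε)) * Real.exp (-(ε * w (Real.log m)))) →
      ∀ ψ : ℕ → ℝ, Antitone ψ → (∀ q, 0 ≤ ψ q) →
        ¬ Summable (fun q : ℕ => ψ q * w (Real.log q)) →
        ∀ᵐ β ∂μ, ∃ᶠ q : ℕ in atTop, dist (q * α) * dist (q * β - z q) < ψ q) ∧
    -- (2) polynomial decay
    (∀ τ : ℝ, 0 < τ → (∀ m : ℕ, 1 ≤ m → ‖fc μ m‖ ≤ C * (m : ℝ) ^ (-τ)) →
      (∀ ψ : ℕ → ℝ, Antitone ψ → (∀ q, 0 ≤ ψ q) →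
        ¬ Summable (fun q : ℕ => ψ q * Real.log q) →
        ∀ᵐ β ∂μ, ∃ᶠ q : ℕ in atTop, dist (q * α) * dist (q * β - z q) < ψ q) ∧
      (∀ᵐ β ∂μ, ∀ ε : ℝ, 0 < ε → ∃ᶠ q : ℕ in atTop,
        q * Real.log q ^ 2 * dist (q * α) * dist (q * β - z q) < ε) ∧
      -- (3) convergence part
      (1 / 2 < τ → ∀ ψ : ℕ → ℝ, Antitone ψ → (∀ q, 0 ≤ ψ q) →
        Summable (fun q : ℕ => ψ q * Real.log q) →
        ∀ᵐ β ∂μ, ∀ᶠ q : ℕ in atTop, ψ q ≤ dist (q * α) * dist (q * β - z q))) := by
  obtain ⟨c, hc, hbad⟩ := hα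
  refine ⟨fun ε K w hε hwm hw01 hwK hμ ψ h1 h2 h3 =>
    Pool.Agent.KS6_2.w_div hc hbad z μ hε hwm (fun t ht => (hw01 t ht).1)
      (fun t ht => (hw01 t ht).2) hwK hμ h1 h2 h3,
    fun τ hτ hμ => ⟨fun ψ h1 h2 h3 => Pool.Agent.KS6_2.poly_div hc hbad z μ hτ hμ h1 h2 h3, ?_,
    fun hτ2 ψ h1 h2 h3 => Pool.Agent.KS6_2.poly_conv hc hbad z μ hτ2 hμ h1 h2 h3⟩⟩
  -- the rate `(log q) ^ 2`
  have hlog : ∀ q : ℕ, 0 < Real.log ((q : ℝ) + 2) := fun q =>
    Real.log_pos (by have : (0 : ℝ) ≤ q := by positivity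
                     linarith)
  have key : ∀ n : ℕ, ∀ᵐ β ∂μ, ∃ᶠ q : ℕ in atTop, dist (q * α) * dist (q * β - z q) <
      (1 / ((n : ℝ) + 1)) / (((q : ℝ) + 2) * Real.log ((q : ℝ) + 2) ^ 2) := by
    intro n
    refine Pool.Agent.KS6_2.poly_div hc hbad z μ hτ hμ ?_ (fun q => by have := hlog q; positivity)
      (rate_not_summable (by positivity))
    intro i j hij
    have h1 : (i : ℝ) ≤ j := by exact_mod_cast hij
    have h2 := hlog i
    have h3 : Real.log ((i : ℝ) + 2) ≤ Real.log ((j : ℝ) + 2) :=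
      Real.log_le_log (by positivity) (by linarith)
    simp only
    gcongr
  rw [← ae_all_iff] at key
  filter_upwards [key] with β hβ ε hε
  obtain ⟨n, hn⟩ := exists_nat_one_div_lt hε
  refine (hβ n).mp ?_
  filter_upwards [eventually_ge_atTop 1] with q hq h
  have hq1 : (1 : ℝ) ≤ q := by exact_mod_cast hq
  have h0 := hlog q
  rw [lt_div_iff₀ (by positivity)] at h
  have hl0 : 0 ≤ Real.log q := Real.log_nonneg hq1
  have hl1 : Real.log q ≤ Real.log ((q : ℝ) + 2) := Real.log_le_log (by linarith) (by linarith)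
  have hd : 0 ≤ dist (q * α) * dist (q * β - z q) := mul_nonneg (abs_nonneg _) (abs_nonneg _)
  calc q * Real.log q ^ 2 * dist (q * α) * dist (q * β - z q)
      = (dist (q * α) * dist (q * β - z q)) * (q * Real.log q ^ 2) := by ring
    _ ≤ (dist (q * α) * dist (q * β - z q)) * (((q : ℝ) + 2) * Real.log ((q : ℝ) + 2) ^ 2) := by
        gcongr
        linarith
    _ < 1 / ((n : ℝ) + 1) := h
    _ < ε := hn

end Pool.Agent.Results.MP_0ea415_nt.FourierDecay
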