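import Pool.Agent.KS6_2.LL.Proc
import Pool.Agent.KS6_2.LL.Lp

/-! # MP_0ea415_nt: the Littlewood products in a badly approximable fibre form a Poisson process

Let `α` be badly approximable and `β` uniformly distributed in a set `E` of finite positive measure.
For `q ≤ Q` such that `q` and the integers nearest to `qα`, `qβ` have no common factor consider the
points `(log q / log Q, log (1 / ‖qα‖) / log Q, (log Q) ^ 2 * q ‖qα‖ ‖qβ‖)`.

* (1) As `Q → ∞` they converge to the Poisson process with intensity `(4 / ζ(3)) ds dv dx` on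
  `{0 < v < s ≤ 1} × (0, ∞)` (convergence of the Laplace functional).
* (2) The convergence is uniform over all ways to treat different `q` differently.
* (3) The number of `q` with value in `U` is asymptotically Poisson with mean `2 |U| / ζ(3)`.
* (4) `(log Q) ^ 2 * min_{q ≤ Q} q ‖qα‖ ‖qβ‖` is asymptotically exponential with rate `2 / ζ(3)`.
* (5) For almost all `β` the set of limit points of these normalised minima is `[0, ∞]`.

Proof: the denominators `q ≤ Q` are cut in blocks `‖qα‖ ≈ η`. In a block the events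
`{‖qβ‖ is small}` have small correlations: `overlap estimates` for the primitive vectors
`(q, p)` (adapted bases, `α` badly approximable), so that the void probability is multiplied by
`1 - (weight of the block)` up to a small error, also inside short intervals. The weights are computed
from `∑_{q ≤ Q} 1 / (q ‖qα‖) ~ (log Q) ^ 2` and Möbius inversion.
-/

open MeasureTheory Filter Topology

namespace Pool.Agent.Results.MP_0ea415_nt.PoissonLaw

/-- distance to the nearest integer -/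
noncomputable def dist (x : ℝ) : ℝ := |x - round x|

/-- the `q ≤ Q` such that `q` and the integers nearest to `qα` and `qβ` have no common factor -/
noncomputable def prim (α β : ℝ) (Q : ℕ) : Finset ℕ :=
  (Finset.Icc 1 Q).filter fun q : ℕ =>
    Nat.gcd q (Nat.gcd (round (q * α)).natAbs (round (q * β)).natAbs) = 1

/-- the normalised product -/
noncomputable def val (α β : ℝ) (Q q : ℕ) : ℝ :=
  Real.log Q ^ 2 * (q * dist (q * α) * dist (q * β))

/-- the weight of `q`: with `g` the common divisor of `q` and the integer nearest to `qα`, it is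
`φ(g) / g` divided by `(log Q) ^ 2 * q * ‖qα‖` -/
noncomputable def weight (α : ℝ) (Q q : ℕ) : ℝ :=
  (Nat.totient (Nat.gcd q (round (q * α)).natAbs) : ℝ) / (Nat.gcd q (round (q * α)).natAbs : ℝ) /
    (Real.log Q ^ 2 * (q * dist (q * α)))

/-- `ζ(3)` -/
noncomputable def zeta3 : ℝ := ∑' n : ℕ, 1 / ((n : ℝ) + 1) ^ 3

open Pool.Agent.KS6_2.LL in
lemma prim_eq (α β : ℝ) (Q : ℕ) : prim α β Q = PQ α Q β := by
  unfold prim PQ gg
  apply Finset.filter_congr
  intro q _
  have : Int.gcd ((Int.gcd (q : ℤ) (round ((q : ℝ) * α)) : ℕ) : ℤ) (round ((q : ℝ) * β)) =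
      Nat.gcd q (Nat.gcd (round ((q : ℝ) * α)).natAbs (round ((q : ℝ) * β)).natAbs) := by
    unfold Int.gcd
    rw [Int.natAbs_natCast, Int.natAbs_natCast, Nat.gcd_assoc]
  rw [this]

lemma val_eq (α β : ℝ) (Q q : ℕ) : val α β Q q = Pool.Agent.KS6_2.LL.val α Q q β := by
  unfold val Pool.Agent.KS6_2.LL.val
  show _ = Real.log Q ^ 2 * (q * dist (q * α)) * dist (q * β)
  ring

open Pool.Agent.KS6_2.LL in
lemma weight_eq (α : ℝ) (Q : ℕ) {q : ℕ} (hq : 0 < q) :
    weight α Q q = rr α q * ph α q / Real.log Q ^ 2 := by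
  unfold weight ph rr
  rw [sum_moebius_div (gg_pos α hq)]
  have : gg α q = Nat.gcd q (round ((q : ℝ) * α)).natAbs := by
    unfold gg Int.gcd; rw [Int.natAbs_natCast]
  rw [this]
  show _ = 1 / ((q : ℝ) * dist (q * α)) * _ / _
  rw [mul_comm (Real.log Q ^ 2), div_mul_eq_div_div]
  ring

open Pool.Agent.KS6_2.LL in
lemma integral_Tri {G : ℝ × ℝ → ℝ} (hG : Continuous G) {B : ℝ} (hB : ∀ p, |G p| ≤ B) :
    ∫ p in Tri, G p = ∫ s in (0 : ℝ)..1, ∫ v in (0 : ℝ)..s, G (s, v) := by
  have hfin : volume Tri ≠ ⊤ := by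
    have h1 := volume_Tri_inter (s := 1) (v := 1) zero_le_one le_rfl zero_le_one
    have h2 : Tri ∩ (Set.Iic (1 : ℝ) ×ˢ Set.Iic (1 : ℝ)) = Tri := by
      apply Set.inter_eq_left.2
      rintro p ⟨h1, h2, h3⟩
      exact ⟨h3, h2.le.trans h3⟩
    rw [h2] at h1
    rw [h1]; exact ENNReal.ofReal_ne_top
  have hint : IntegrableOn G Tri := by
    have : IsFiniteMeasure (volume.restrict Tri) := ⟨by
      rw [Measure.restrict_apply_univ]; exact hfin.lt_top⟩
    refine Integrable.of_bound (C := B) hG.aestronglyMeasurable ?_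
    filter_upwards with p
    rw [Real.norm_eq_abs]; exact hB p
  rw [← integral_indicator measurableSet_Tri]
  rw [Measure.volume_eq_prod, integral_prod _ (by
    rw [← Measure.volume_eq_prod]
    exact (integrable_indicator_iff measurableSet_Tri).2 hint)]
  rw [intervalIntegral.integral_of_le zero_le_one, ← integral_indicator measurableSet_Ioc]
  congr 1
  funext s
  by_cases hs : s ∈ Set.Ioc (0 : ℝ) 1
  · rw [Set.indicator_of_mem hs, intervalIntegral.integral_of_le hs.1.le,
      integral_Ioc_eq_integral_Ioo, ← integral_indicator measurableSet_Ioo]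
    congr 1
    funext v
    by_cases hv : v ∈ Set.Ioo (0 : ℝ) s
    · rw [Set.indicator_of_mem hv, Set.indicator_of_mem (show (s, v) ∈ Tri from ⟨hv.1, hv.2, hs.2⟩)]
    · rw [Set.indicator_of_notMem hv, Set.indicator_of_notMem]
      rintro ⟨h1, h2, h3⟩
      exact hv ⟨h1, h2⟩
  · rw [Set.indicator_of_notMem hs]
    have : ∀ v, Tri.indicator G (s, v) = 0 := by
      intro v
      apply Set.indicator_of_notMem
      rintro ⟨h1, h2, h3⟩
      exact hs ⟨lt_trans h1 h2, h3⟩
    simp [this]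

/-- **The Littlewood products in a badly approximable fibre form a Poisson process.** -/
theorem result (α : ℝ) (hα : ∃ c : ℝ, 0 < c ∧ ∀ q : ℕ, 1 ≤ q → c ≤ q * dist (q * α))
    (E : Set ℝ) (hE : MeasurableSet E) (hE' : volume E ≠ ⊤) :
    -- (1) convergence to the Poisson process
    (∀ F : ℝ → ℝ → ℝ → ℝ, Continuous (fun z : ℝ × ℝ × ℝ => F z.1 z.2.1 z.2.2) →
      (∀ s v x, 0 ≤ F s v x ∧ F s v x ≤ 1) → (∃ M : ℝ, ∀ s v x, M ≤ x → F s v x = 1) →
      Tendsto (fun Q : ℕ => ∫ β in E, ∏ q ∈ prim α β Q,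
        F (Real.log q / Real.log Q) (-Real.log (dist (q * α)) / Real.log Q) (val α β Q q)) atTop
        (𝓝 (volume.real E * Real.exp (-(4 / zeta3 *
          ∫ s in (0 : ℝ)..1, ∫ v in (0 : ℝ)..s, ∫ x in Set.Ioi 0, (1 - F s v x)))))) ∧
    -- (2) uniformity in the denominators
    (∀ (r : ℕ) (φ : Fin r → ℝ → ℝ), (∀ j, Measurable (φ j)) → (∀ j x, 0 ≤ φ j x ∧ φ j x ≤ 1) →
      (∀ j, IntegrableOn (fun x => 1 - φ j x) (Set.Ioi 0)) → ∀ ε : ℝ, 0 < ε →
      ∀ᶠ Q : ℕ in atTop, ∀ κ : ℕ → Fin r,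
        |(∫ β in E, ∏ q ∈ prim α β Q, φ (κ q) (val α β Q q)) - volume.real E *
          Real.exp (-(2 * ∑ q ∈ Finset.Icc 1 Q,
            weight α Q q * ∫ x in Set.Ioi 0, (1 - φ (κ q) x)))| ≤ ε) ∧
    -- (3) the number of values in `U`
    (∀ U : Set ℝ, MeasurableSet U → U ⊆ Set.Ioi 0 → volume U ≠ ⊤ → ∀ k : ℕ,
      Tendsto (fun Q : ℕ => volume.real {β | β ∈ E ∧
        Set.ncard {q | q ∈ prim α β Q ∧ val α β Q q ∈ U} = k}) atTop
        (𝓝 (volume.real E * (Real.exp (-(2 * volume.real U / zeta3)) *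
          (2 * volume.real U / zeta3) ^ k / k.factorial)))) ∧
    -- (4) the minimum
    (∀ x : ℝ, 0 ≤ x → Tendsto (fun Q : ℕ => volume.real {β | β ∈ E ∧ ∀ q ∈ Finset.Icc 1 Q,
        x < Real.log Q ^ 2 * (q * dist (q * α) * dist (q * β))}) atTop
        (𝓝 (volume.real E * Real.exp (-(2 * x / zeta3))))) ∧
    -- (5) the limit points of the minima
    (∀ᵐ β : ℝ, ∀ a b : ℝ, 0 ≤ a → a < b → ∃ᶠ Q : ℕ in atTop,
      (∀ q ∈ Finset.Icc 1 Q, a < Real.log Q ^ 2 * (q * dist (q * α) * dist (q * β))) ∧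
      ∃ q ∈ Finset.Icc 1 Q, Real.log Q ^ 2 * (q * dist (q * α) * dist (q * β)) ≤ b) := by
  obtain ⟨c, hc, hbad⟩ := hα
  have hbad' : Pool.Agent.KS6_2.Bad c α := hbad
  have hval : ∀ (β : ℝ) (Q q : ℕ), Pool.Agent.KS6_2.LL.val α Q q β =
      Real.log Q ^ 2 * (q * dist (q * α) * dist (q * β)) := fun β Q q => (val_eq α β Q q).symm
  refine ⟨?_, ?_, ?_, ?_, ?_⟩
  · rintro F hF h01 ⟨M, hM⟩
    have h1 := Pool.Agent.KS6_2.LL.proc_lim hc hbad' hF h01 hM hE hE'
    set M' : ℝ := max M 1 with hM'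
    have hM'0 : 0 < M' := lt_of_lt_of_le one_pos (le_max_right _ _)
    have hM1 : ∀ s v x, M' ≤ x → F s v x = 1 := fun s v x hx => hM s v x ((le_max_left _ _).trans hx)
    set G : ℝ × ℝ → ℝ := fun p => ∫ x in Set.Ioi 0, (1 - F p.1 p.2 x) with hG
    have hG1 : ∀ p, G p = ∫ x in (0 : ℝ)..M', (1 - F p.1 p.2 x) := by
      intro p
      rw [hG, intervalIntegral.integral_of_le hM'0.le]
      exact Pool.Agent.KS6_2.LL.integral_tail (hM1 p.1 p.2)
    have hGc : Continuous G := by
      have : G = fun p : ℝ × ℝ => ∫ x in (0 : ℝ)..M', (1 - F p.1 p.2 x) := funext hG1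
      rw [this]
      apply intervalIntegral.continuous_parametric_intervalIntegral_of_continuous'
      have h1 : Continuous fun z : (ℝ × ℝ) × ℝ => F z.1.1 z.1.2 z.2 :=
        hF.comp (by fun_prop : Continuous fun z : (ℝ × ℝ) × ℝ => (z.1.1, z.1.2, z.2))
      exact continuous_const.sub h1
    have hGb : ∀ p, |G p| ≤ M' := by
      intro p
      rw [hG1 p]
      have h1 := intervalIntegral.norm_integral_le_of_norm_le_const (a := 0) (b := M') (C := 1)
        (f := fun x => 1 - F p.1 p.2 x) (fun x _ => by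
          have := h01 p.1 p.2 x
          rw [Real.norm_eq_abs, abs_le]; constructor <;> linarith)
      rw [sub_zero, abs_of_pos hM'0, one_mul, Real.norm_eq_abs] at h1
      exact h1
    have h2 := integral_Tri hGc hGb
    have e : 4 * (∫ p in Pool.Agent.KS6_2.LL.Tri, ∫ x in Set.Ioi 0, (1 - F p.1 p.2 x)) /
        Pool.Agent.KS6_2.LL.z3 = 4 / zeta3 *
          ∫ s in (0 : ℝ)..1, ∫ v in (0 : ℝ)..s, ∫ x in Set.Ioi 0, (1 - F s v x) := by
      have h3 : (∫ p in Pool.Agent.KS6_2.LL.Tri, ∫ x in Set.Ioi 0, (1 - F p.1 p.2 x)) =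
        ∫ s in (0 : ℝ)..1, ∫ v in (0 : ℝ)..s, ∫ x in Set.Ioi 0, (1 - F s v x) := h2
      rw [h3]
      show 4 * _ / zeta3 = _
      ring
    rw [e] at h1
    refine h1.congr fun Q => ?_
    congr 1
    funext β
    rw [prim_eq]
    refine Finset.prod_congr rfl fun q _ => ?_
    rw [val_eq]
    unfold Pool.Agent.KS6_2.LL.pt
    simp only [one_div, Real.log_inv]
    rfl
  · intro r φ h1 h2 h3 ε hε
    filter_upwards [Pool.Agent.KS6_2.LL.gf_unif hc hbad' h1 h2 h3 hE hE' hε] with Q hQ κ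
    have h4 := hQ κ
    have e1 : Pool.Agent.KS6_2.LL.ex α (fun q => ∫ x in Set.Ioi 0, (1 - φ (κ q) x)) Q =
        2 * ∑ q ∈ Finset.Icc 1 Q, weight α Q q * ∫ x in Set.Ioi 0, (1 - φ (κ q) x) := by
      unfold Pool.Agent.KS6_2.LL.ex
      rw [Finset.mul_sum]
      refine Finset.sum_congr rfl fun q hq => ?_
      rw [weight_eq α Q (by have := (Finset.mem_Icc.1 hq).1; omega)]
      ring
    rw [e1] at h4
    have e2 : (∫ β in E, ∏ q ∈ prim α β Q, φ (κ q) (val α β Q q)) =
        ∫ y in E, ∏ q ∈ Pool.Agent.KS6_2.LL.PQ α Q y,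
          φ (κ q) (Pool.Agent.KS6_2.LL.val α Q q y) := by
      congr 1
      funext β
      rw [prim_eq]
      exact Finset.prod_congr rfl fun q _ => by rw [val_eq]
    rw [e2]
    exact h4
  · intro U hU hU0 hUf k
    have h1 := Pool.Agent.KS6_2.LL.count_law hc hbad' hE hE' hU hU0 hUf k
    refine h1.congr fun Q => ?_
    congr 1
    ext β
    simp only [Set.mem_ofPred_eq, prim_eq, val_eq]
  · intro x hx
    have h1 := Pool.Agent.KS6_2.LL.min_law hc hbad' hE hE' hx
    refine h1.congr fun Q => ?_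
    congr 1
    ext β
    simp only [Set.mem_ofPred_eq]
    simp only [hval]
  · have h1 := Pool.Agent.KS6_2.LL.limit_points hc hbad'
    simp only [hval] at h1
    exact h1

end Pool.Agent.Results.MP_0ea415_nt.PoissonLaw
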